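import Mathlib

/-!
# Equality sets of injective morphisms on three or more letters need not be regular

The example on three letters is
`h : x ↦ 01010, y ↦ 0101, z ↦ 010` and `g : x ↦ 0, y ↦ 1010, z ↦ 0101010`.
After a word `w` with `h w = g w (01)^(2m)` one can read `x y^(m+1)`, which raises `m` by one, or
`z y^(m-1)`, which lowers `m` by one.
-/

namespace Pool.Agent.Results.MP_195d7c_lc.NotRegular

/-- The equality set `E(h, g) = {w | h w = g w}` of two morphisms of free monoids. -/
def equalitySet {α β : Type} (h g : FreeMonoid α →* FreeMonoid β) : Language α :=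
  {w : List α | h (FreeMonoid.ofList w) = g (FreeMonoid.ofList w)}

/-! ### The images, over the alphabet of natural numbers -/

/-- The images of the letters under the first morphism. -/
def hW : ℕ → List ℕ
  | 0 => [0, 1, 0, 1, 0]
  | 1 => [0, 1, 0, 1]
  | 2 => [0, 1, 0]
  | k + 3 => [k + 3]

/-- The images of the letters under the second morphism. -/
def gW : ℕ → List ℕ
  | 0 => [0]
  | 1 => [1, 0, 1, 0]
  | 2 => [0, 1, 0, 1, 0, 1, 0]
  | k + 3 => [k + 3]

/-- The reversed images of the letters under the second morphism. -/
def gR : ℕ → List ℕ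
  | 0 => [0]
  | 1 => [0, 1, 0, 1]
  | 2 => [0, 1, 0, 1, 0, 1, 0]
  | k + 3 => [k + 3]

theorem hW_ne_one (u : List ℕ) (t : List ℕ) : u.flatMap hW ≠ 1 :: t := by
  cases u with
  | nil => simp
  | cons a u => match a with
    | 0 | 1 | 2 => simp [hW]
    | k + 3 => simp [hW]

theorem gR_ne_one (u : List ℕ) (t : List ℕ) : u.flatMap gR ≠ 1 :: t := by
  cases u with
  | nil => simp
  | cons a u => match a with
    | 0 | 1 | 2 => simp [gR]
    | k + 3 => simp [gR]

theorem hW_zero_ne (u v : List ℕ) : 0 :: u.flatMap hW ≠ v.flatMap hW := by
  cases v with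
  | nil => simp
  | cons b v => match b with
    | 0 | 1 | 2 => simpa [hW] using hW_ne_one u _
    | k + 3 => simp [hW]

theorem hW_injective (u v : List ℕ) (h : u.flatMap hW = v.flatMap hW) : u = v := by
  induction u generalizing v with
  | nil =>
    cases v with
    | nil => rfl
    | cons b v => match b with
      | 0 | 1 | 2 => simp [hW] at h
      | k + 3 => simp [hW] at h
  | cons a u ih =>
    cases v with
    | nil => match a with
      | 0 | 1 | 2 => simp [hW] at h
      | k + 3 => simp [hW] at h
    | cons b v =>
      match a, b with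
      | 0, 0 => rw [ih v (by simpa [hW] using h)]
      | 0, 1 => exact absurd (by simpa [hW] using h) (hW_zero_ne u v)
      | 0, 2 => exact absurd (by simpa [hW] using h.symm) (hW_ne_one v _)
      | 0, k + 3 => simp [hW] at h
      | 1, 0 => exact absurd (by simpa [hW] using h.symm) (hW_zero_ne v u)
      | 1, 1 => rw [ih v (by simpa [hW] using h)]
      | 1, 2 => exact absurd (by simpa [hW] using h.symm) (hW_ne_one v _)
      | 1, k + 3 => simp [hW] at h
      | 2, 0 => exact absurd (by simpa [hW] using h) (hW_ne_one u _)
      | 2, 1 => exact absurd (by simpa [hW] using h) (hW_ne_one u _)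
      | 2, 2 => rw [ih v (by simpa [hW] using h)]
      | 2, k + 3 => simp [hW] at h
      | k + 3, 0 => simp [hW] at h
      | k + 3, 1 => simp [hW] at h
      | k + 3, 2 => simp [hW] at h
      | k + 3, l + 3 =>
        simp only [hW, List.flatMap_cons, List.cons_append, List.nil_append,
          List.cons.injEq] at h
        rw [ih v h.2, h.1]

theorem gR_aux (u v : List ℕ) : u.flatMap gR ≠ 0 :: 1 :: 0 :: v.flatMap gR := by
  cases u with
  | nil => simp
  | cons a u => match a with
    | 0 => simpa [gR] using gR_ne_one u _
    | 1 => simpa [gR] using (gR_ne_one v _).symm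
    | 2 => simpa [gR] using (gR_ne_one v _).symm
    | k + 3 => simp [gR]

theorem gR_injective (u v : List ℕ) (h : u.flatMap gR = v.flatMap gR) : u = v := by
  induction u generalizing v with
  | nil =>
    cases v with
    | nil => rfl
    | cons b v => match b with
      | 0 | 1 | 2 => simp [gR] at h
      | k + 3 => simp [gR] at h
  | cons a u ih =>
    cases v with
    | nil => match a with
      | 0 | 1 | 2 => simp [gR] at h
      | k + 3 => simp [gR] at h
    | cons b v =>
      match a, b with
      | 0, 0 => rw [ih v (by simpa [gR] using h)]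
      | 0, 1 => exact absurd (by simpa [gR] using h) (gR_ne_one u _)
      | 0, 2 => exact absurd (by simpa [gR] using h) (gR_ne_one u _)
      | 0, k + 3 => simp [gR] at h
      | 1, 0 => exact absurd (by simpa [gR] using h.symm) (gR_ne_one v _)
      | 1, 1 => rw [ih v (by simpa [gR] using h)]
      | 1, 2 => exact absurd (by simpa [gR] using h) (gR_aux u v)
      | 1, k + 3 => simp [gR] at h
      | 2, 0 => exact absurd (by simpa [gR] using h.symm) (gR_ne_one v _)
      | 2, 1 => exact absurd (by simpa [gR] using h.symm) (gR_aux v u)
      | 2, 2 => rw [ih v (by simpa [gR] using h)]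
      | 2, k + 3 => simp [gR] at h
      | k + 3, 0 => simp [gR] at h
      | k + 3, 1 => simp [gR] at h
      | k + 3, 2 => simp [gR] at h
      | k + 3, l + 3 =>
        simp only [gR, List.flatMap_cons, List.cons_append, List.nil_append,
          List.cons.injEq] at h
        rw [ih v h.2, h.1]

theorem gW_reverse (k : ℕ) : (gW k).reverse = gR k := by
  match k with
  | 0 | 1 | 2 => rfl
  | k + 3 => rfl

theorem gW_injective (u v : List ℕ) (h : u.flatMap gW = v.flatMap gW) : u = v := by
  have h1 : u.reverse.flatMap gR = v.reverse.flatMap gR := by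
    have h2 := congrArg List.reverse h
    rw [List.reverse_flatMap, List.reverse_flatMap] at h2
    have h3 : List.reverse ∘ gW = gR := funext gW_reverse
    rwa [h3] at h2
  exact List.reverse_injective (gR_injective _ _ h1)

/-! ### The binary encoding -/

/-- The letter `k` is encoded as `1^k 0`. -/
def enc (k : ℕ) : List (Fin 2) := List.replicate k 1 ++ [0]

theorem enc_append_injective (k l : ℕ) (s t : List (Fin 2)) (h : enc k ++ s = enc l ++ t) :
    k = l ∧ s = t := by
  induction k generalizing l with
  | zero =>
    cases l with
    | zero => exact ⟨rfl, by simpa [enc] using h⟩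
    | succ l => simp [enc, List.replicate_succ] at h
  | succ k ih =>
    cases l with
    | zero => simp [enc, List.replicate_succ] at h
    | succ l =>
      have := ih l (by simpa [enc, List.replicate_succ] using h)
      exact ⟨by rw [this.1], this.2⟩

theorem enc_injective (u v : List ℕ) (h : u.flatMap enc = v.flatMap enc) : u = v := by
  induction u generalizing v with
  | nil =>
    cases v with
    | nil => rfl
    | cons b v => simp [enc] at h
  | cons a u ih =>
    cases v with
    | nil => simp [enc] at h
    | cons b v =>
      obtain ⟨h1, h2⟩ := enc_append_injective a b _ _ h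
      rw [h1, ih v h2]

/-! ### The morphisms -/

/-- The morphism to binary words given by images over the natural numbers. -/
def mor (n : ℕ) (f : ℕ → List ℕ) : FreeMonoid (Fin n) →* FreeMonoid (Fin 2) :=
  FreeMonoid.lift fun i => FreeMonoid.ofList ((f i.val).flatMap enc)

theorem mor_apply (n : ℕ) (f : ℕ → List ℕ) (w : List (Fin n)) :
    mor n f (FreeMonoid.ofList w) = FreeMonoid.ofList (((w.map Fin.val).flatMap f).flatMap enc) := by
  unfold mor
  rw [FreeMonoid.lift_ofList]
  induction w with
  | nil => rfl
  | cons a w ih =>
    rw [List.map_cons, List.prod_cons, ih]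
    simp only [List.map_cons, List.flatMap_cons, List.flatMap_append]
    rfl

theorem mor_eq_iff (n : ℕ) (f g : ℕ → List ℕ) (u v : List (Fin n)) :
    mor n f (FreeMonoid.ofList u) = mor n g (FreeMonoid.ofList v) ↔
      (u.map Fin.val).flatMap f = (v.map Fin.val).flatMap g := by
  rw [mor_apply, mor_apply]
  constructor
  · intro h
    exact enc_injective _ _ (FreeMonoid.ofList.injective h)
  · intro h
    rw [h]

theorem mor_injective (n : ℕ) (f : ℕ → List ℕ)
    (hf : ∀ u v : List ℕ, u.flatMap f = v.flatMap f → u = v) :
    Function.Injective (mor n f) := by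
  intro u v h
  have h1 := (mor_eq_iff n f f (FreeMonoid.toList u) (FreeMonoid.toList v)).1 h
  have h2 := hf _ _ h1
  exact FreeMonoid.toList.injective (List.map_injective_iff.2 Fin.val_injective h2)

/-! ### The growing and shrinking words -/

/-- `x y x y^2 ⋯ x y^m`. -/
def up : ℕ → List ℕ
  | 0 => []
  | m + 1 => up m ++ 0 :: List.replicate (m + 1) 1

/-- `z y^(m-1) ⋯ z y z`. -/
def down : ℕ → List ℕ
  | 0 => []
  | m + 1 => 2 :: List.replicate m 1 ++ down m

/-- `(01)^m`. -/
def zo (m : ℕ) : List ℕ := (List.replicate m [0, 1]).flatten

/-- `(10)^m`. -/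
def oz (m : ℕ) : List ℕ := (List.replicate m [1, 0]).flatten

theorem zo_succ (m : ℕ) : zo (m + 1) = 0 :: 1 :: zo m := by
  simp [zo, List.replicate_succ]

theorem oz_succ (m : ℕ) : oz (m + 1) = 1 :: 0 :: oz m := by
  simp [oz, List.replicate_succ]

theorem zo_add (m k : ℕ) : zo (m + k) = zo m ++ zo k := by
  rw [zo, List.replicate_add, List.flatten_append]
  rfl

theorem oz_add (m k : ℕ) : oz (m + k) = oz m ++ oz k := by
  rw [oz, List.replicate_add, List.flatten_append]
  rfl

theorem zo_append_zero (m : ℕ) : zo m ++ [0] = 0 :: oz m := by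
  induction m with
  | zero => rfl
  | succ m ih => rw [zo_succ, List.cons_append, List.cons_append, ih, oz_succ]

theorem length_zo (m : ℕ) : (zo m).length = 2 * m := by
  induction m with
  | zero => rfl
  | succ m ih => rw [zo_succ, List.length_cons, List.length_cons, ih]; ring

theorem hW_replicate (m : ℕ) : (List.replicate m 1).flatMap hW = zo (2 * m) := by
  induction m with
  | zero => rfl
  | succ m ih =>
    rw [List.replicate_succ, List.flatMap_cons, ih, Nat.mul_succ, Nat.add_comm, zo_add]
    rfl

theorem gW_replicate (m : ℕ) : (List.replicate m 1).flatMap gW = oz (2 * m) := by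
  induction m with
  | zero => rfl
  | succ m ih =>
    rw [List.replicate_succ, List.flatMap_cons, ih, Nat.mul_succ, Nat.add_comm, oz_add]
    rfl

theorem up_eq (m : ℕ) : (up m).flatMap hW = (up m).flatMap gW ++ zo (2 * m) := by
  induction m with
  | zero => rfl
  | succ m ih =>
    have h1 : hW 0 = zo 2 ++ [0] := rfl
    have h2 : gW 0 = [0] := rfl
    have h3 : zo (2 * m) ++ (zo 2 ++ [0]) = [0] ++ oz (2 * (m + 1)) := by
      rw [← List.append_assoc, ← zo_add, zo_append_zero]
      rfl
    rw [up, List.flatMap_append, List.flatMap_append, List.flatMap_cons, List.flatMap_cons,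
      hW_replicate, gW_replicate, ih, h1, h2]
    simp only [List.append_assoc]
    rw [← List.append_assoc (zo (2 * m)), ← List.append_assoc (zo (2 * m) ++ zo 2),
      List.append_assoc (zo (2 * m)), h3]
    simp only [List.append_assoc]

theorem down_eq (m : ℕ) : zo (2 * m) ++ (down m).flatMap hW = (down m).flatMap gW := by
  induction m with
  | zero => rfl
  | succ m ih =>
    have h1 : hW 2 = zo 1 ++ [0] := rfl
    have h2 : gW 2 = [0] ++ oz 3 := rfl
    have h3 : zo (2 * (m + 1)) ++ (zo 1 ++ [0]) = [0] ++ (oz 3 ++ oz (2 * m)) := by
      rw [← List.append_assoc, ← zo_add, zo_append_zero, ← oz_add]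
      congr 2
      ring
    rw [down, List.cons_append, List.flatMap_cons, List.flatMap_cons, List.flatMap_append,
      List.flatMap_append, hW_replicate, gW_replicate, ← ih, h1, h2]
    simp only [List.append_assoc]
    rw [← List.append_assoc (zo (2 * (m + 1))), ← List.append_assoc (zo (2 * (m + 1)) ++ zo 1),
      List.append_assoc (zo (2 * (m + 1))), h3]
    simp only [List.append_assoc]

theorem mem_iff (m k : ℕ) :
    (up m ++ down k).flatMap hW = (up m ++ down k).flatMap gW ↔ m = k := by
  rw [List.flatMap_append, List.flatMap_append, up_eq, List.append_assoc, ← down_eq k]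
  rw [List.append_cancel_left_eq, List.append_cancel_right_eq]
  constructor
  · intro h
    have := congrArg List.length h
    rw [length_zo, length_zo] at this
    omega
  · rintro rfl; rfl

theorem up_lt (m : ℕ) : ∀ a ∈ up m, a < 3 := by
  induction m with
  | zero => simp [up]
  | succ m ih =>
    intro a ha
    rw [up, List.mem_append, List.mem_cons, List.mem_replicate] at ha
    rcases ha with h | h | h
    · exact ih a h
    · omega
    · omega

theorem down_lt (m : ℕ) : ∀ a ∈ down m, a < 3 := by
  induction m with
  | zero => simp [down]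
  | succ m ih =>
    intro a ha
    rw [down, List.cons_append, List.mem_cons, List.mem_append, List.mem_replicate] at ha
    rcases ha with h | h | h
    · omega
    · omega
    · exact ih a h

theorem exists_map_val (n : ℕ) (hn : 3 ≤ n) (u : List ℕ) (hu : ∀ a ∈ u, a < 3) :
    ∃ w : List (Fin n), w.map Fin.val = u := by
  induction u with
  | nil => exact ⟨[], rfl⟩
  | cons a u ih =>
    obtain ⟨w, hw⟩ := ih fun b hb => hu b (List.mem_cons_of_mem a hb)
    have ha : a < n := lt_of_lt_of_le (hu a List.mem_cons_self) hn
    exact ⟨⟨a, ha⟩ :: w, by rw [List.map_cons, hw]⟩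

/-- For every alphabet with at least three letters there are injective morphisms `h`, `g` from it
to the binary alphabet such that the equality set `E(h, g)` is not regular. -/
theorem result (n : ℕ) (hn : 3 ≤ n) :
    ∃ h g : FreeMonoid (Fin n) →* FreeMonoid (Fin 2),
      Function.Injective h ∧ Function.Injective g ∧ ¬ (equalitySet h g).IsRegular := by
  refine ⟨mor n hW, mor n gW, mor_injective n hW hW_injective, mor_injective n gW gW_injective,
    fun hreg => ?_⟩
  choose U hU using fun m => exists_map_val n hn (up m) (up_lt m)
  choose D hD using fun m => exists_map_val n hn (down m) (down_lt m)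
  have hmem : ∀ m k, D k ∈ (equalitySet (mor n hW) (mor n gW)).leftQuotient (U m) ↔ m = k := by
    intro m k
    rw [← mem_iff m k, ← hU m, ← hD k, ← List.map_append]
    exact mor_eq_iff n hW gW (U m ++ D k) (U m ++ D k)
  have hfin := hreg.finite_range_leftQuotient
  have hinj : Function.Injective fun m =>
      (equalitySet (mor n hW) (mor n gW)).leftQuotient (U m) := by
    intro m k hmk
    have h1 := (hmem m m).2 rfl
    have h2 : (equalitySet (mor n hW) (mor n gW)).leftQuotient (U m) =
      (equalitySet (mor n hW) (mor n gW)).leftQuotient (U k) := hmk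
    rw [h2] at h1
    exact ((hmem k m).1 h1).symm
  refine Set.infinite_range_of_injective hinj (hfin.subset ?_)
  rintro _ ⟨m, rfl⟩
  exact ⟨U m, rfl⟩

end Pool.Agent.Results.MP_195d7c_lc.NotRegular
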